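import Pool.Agent.X119.CD.Stm

set_option autoImplicit false

namespace Pool.Agent.X50.CD

open Polynomial Pool.Agent.X119.CD

/-- nonnegative coefficients, supported in `[lo, hi)` -/
def Sup (lo hi : ℕ) (P : ℝ[X]) : Prop :=
  ∀ i, 0 ≤ P.coeff i ∧ (¬ (lo ≤ i ∧ i < hi) → P.coeff i = 0)

lemma Sup.add {lo hi : ℕ} {P Q : ℝ[X]} (hP : Sup lo hi P) (hQ : Sup lo hi Q) :
    Sup lo hi (P + Q) := by
  intro i
  rw [coeff_add]
  refine ⟨add_nonneg (hP i).1 (hQ i).1, fun h => ?_⟩
  rw [(hP i).2 h, (hQ i).2 h, add_zero]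

lemma Sup.mono {lo hi k : ℕ} {a : ℝ} (ha : 0 ≤ a) (h1 : lo ≤ k) (h2 : k < hi) :
    Sup lo hi (C a * X ^ k) := by
  intro i
  rw [coeff_C_mul, coeff_X_pow]
  constructor
  · split_ifs
    · simpa using ha
    · simp
  · intro h
    rw [if_neg (by rintro rfl; exact h ⟨h1, h2⟩), mul_zero]

theorem t_NEG : S_SV → S_KEY → S_NEG := by
  intro hSV hKEY p q hp hq hpo hqo hpq
  obtain ⟨a, rfl⟩ : ∃ a, p = a + 1 := ⟨p - 1, (Nat.sub_add_cancel hp.one_lt.le).symm⟩
  obtain ⟨b, rfl⟩ : ∃ b, q = b + 1 := ⟨q - 1, (Nat.sub_add_cancel hq.one_lt.le).symm⟩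
  obtain ⟨m, hm⟩ : ∃ m, (a + 1) * (b + 1) = m + 1 :=
    ⟨(a + 1) * (b + 1) - 1, (Nat.sub_add_cancel (Nat.succ_le_of_lt (by positivity))).symm⟩
  have ha2 : 2 ≤ a := by
    have h1 := hp.two_le
    rcases Nat.lt_or_ge a 2 with h | h
    · exfalso
      have : a = 1 := by omega
      subst this
      exact absurd hpo (by decide)
    · exact h
  have hab : a < b := by omega
  have hbig : a + b + 2 < m := by
    have h3 : a * b ≥ 2 * b := Nat.mul_le_mul_right b ha2
    have h4 : (a + 1) * (b + 1) = a * b + a + b + 1 := by ring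
    omega
  have hne : a + 1 ≠ b + 1 := by omega
  have key := hKEY (a + 1) (b + 1) hp hq hne
  rw [hm] at key ⊢
  set Φ := cyclotomic (m + 1) ℝ with hΦ
  set Ψ := Φ.comp (-X) with hΨ
  have hmo : Odd (m + 1) := by rw [← hm]; exact hpo.mul hqo
  -- the identity for Ψ
  have hB : Ψ * ((X ^ (a + 1) + 1) * (X ^ (b + 1) + 1)) = (X ^ (m + 1) + 1) * (X + 1) := by
    have h := congrArg (fun P : ℝ[X] => P.comp (-X)) key
    simp only [mul_comp, sub_comp, X_comp, one_comp, pow_comp] at h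
    rw [hpo.neg_pow, hqo.neg_pow, hmo.neg_pow] at h
    linear_combination h
  have hd := congrArg derivative hB
  rw [derivative_mul] at hd
  set B : ℝ[X] := (X ^ (a + 1) + 1) * (X ^ (b + 1) + 1) with hBdef
  set A : ℝ[X] := (X ^ (m + 1) + 1) * (X + 1) with hAdef
  set W : ℝ[X] := derivative A * B - A * derivative B with hW
  have hfac : derivative Ψ * B ^ 2 = W := by
    rw [hW, ← hd, ← hB]; ring
  -- the explicit form
  set P2 : ℝ[X] := C ((m : ℝ) - a - b) * X ^ (m + a + b + 3) + C ((m : ℝ) - a - b - 1) * X ^ (m + a + b + 2)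
    + C ((m : ℝ) + 1 - a) * X ^ (m + a + 2) + C ((m : ℝ) + 1 - b) * X ^ (m + b + 2)
    + C ((m : ℝ) - a) * X ^ (m + a + 1) + C ((m : ℝ) - b) * X ^ (m + b + 1)
    + C ((m : ℝ) + 2) * X ^ (m + 1) + C ((m : ℝ) + 1) * X ^ m with hP2
  set P1 : ℝ[X] := C ((a : ℝ) + b + 1) * X ^ (a + b + 2) + C ((a : ℝ) + b + 2) * X ^ (a + b + 1)
    + C (a : ℝ) * X ^ (a + 1) + C (b : ℝ) * X ^ (b + 1) + C ((a : ℝ) + 1) * X ^ a
    + C ((b : ℝ) + 1) * X ^ b with hP1
  have hWe : W = P2 - P1 + 1 := by
    rw [hW, hAdef, hBdef, hP2, hP1]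
    simp only [derivative_mul, derivative_add, derivative_X_pow_succ, derivative_one, derivative_X,
      map_add, map_sub, map_one, map_natCast, map_ofNat, add_zero]
    ring
  have hmR : (a : ℝ) + b + 2 < m := by exact_mod_cast hbig
  have ha0 : (0 : ℝ) ≤ a := Nat.cast_nonneg a
  have hb0 : (0 : ℝ) ≤ b := Nat.cast_nonneg b
  have s2 : Sup m (m + a + b + 4) P2 := by
    rw [hP2]
    refine Sup.add (Sup.add (Sup.add (Sup.add (Sup.add (Sup.add (Sup.add ?_ ?_) ?_) ?_) ?_) ?_) ?_) ?_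
    all_goals exact Sup.mono (by linarith) (by omega) (by omega)
  have s1 : Sup 1 m P1 := by
    rw [hP1]
    refine Sup.add (Sup.add (Sup.add (Sup.add (Sup.add ?_ ?_) ?_) ?_) ?_) ?_
    all_goals exact Sup.mono (by linarith) (by omega) (by omega)
  have hW0 : W.coeff 0 = 1 := by
    rw [hWe, coeff_add, coeff_sub, (s2 0).2 (by omega), (s1 0).2 (by omega)]
    simp
  have hWne : W ≠ 0 := by
    intro h
    rw [h] at hW0
    simp at hW0
  -- sign counter
  set g : ℕ → ℕ := fun i => if i = 0 then 0 else if i < m then 1 else 2 with hg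
  have hgm : Monotone g := by
    intro i j hij
    simp only [hg]
    split_ifs <;> omega
  have hsign : ∀ i, 0 ≤ (-1 : ℝ) ^ (g i) * W.coeff i := by
    intro i
    by_cases h0 : i = 0
    · subst h0
      simp [hg, hW0]
    · have h1c : (1 : ℝ[X]).coeff i = 0 := by
        rw [coeff_one, if_neg h0]
      by_cases h1 : i < m
      · have hgi : g i = 1 := by simp [hg, h0, h1]
        rw [hgi, hWe, coeff_add, coeff_sub, (s2 i).2 (by omega), h1c]
        have := (s1 i).1
        linarith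
      · have hgi : g i = 2 := by simp [hg, h0, h1]
        rw [hgi, hWe, coeff_add, coeff_sub, (s1 i).2 (by omega), h1c]
        have := (s2 i).1
        linarith
  have hsv := hSV W g hgm hsign
  have hg2 : g W.natDegree - g 0 ≤ 2 := by
    simp only [hg]
    split_ifs <;> omega
  have hroots : W.roots.countP (0 < ·) ≤ 2 :=
    (roots_countP_pos_le_signVariations W).trans (hsv.trans hg2)
  -- transfer
  have hdvd : (derivative Φ).comp (-X) ∣ W := by
    rw [← hfac, hΨ, derivative_comp]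
    exact Dvd.intro_left _ (by ring : (derivative (-X : ℝ[X]) * B ^ 2) * (derivative Φ).comp (-X)
      = derivative (-X : ℝ[X]) * (derivative Φ).comp (-X) * B ^ 2)
  have hle := roots.le_of_dvd hWne hdvd
  have h5 := Multiset.countP_le_of_le (0 < ·) hle
  rw [roots_comp_neg_X, Multiset.countP_map] at h5
  have h6 : (derivative Φ).roots.countP (· < 0)
      = ((derivative Φ).roots.filter (fun x => 0 < -x)).card := by
    rw [Multiset.countP_eq_card_filter]
    congr 1
    apply Multiset.filter_congr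
    intro x _
    constructor
    · intro h; linarith
    · intro h; linarith
  rw [h6]
  exact h5.trans hroots

end Pool.Agent.X50.CD
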